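import Pool.Agent.Helper29.SH.Goals

/-!
# Project SH (MP_0a002a_al): packet CARD
-/

set_option autoImplicit false

namespace Pool.Agent.Helper83.SH

open Subgroup Pool.H83Shunkov Pool.Agent.Helper29.SH

theorem t_CARD : S_CARD := by
  classical
  intro M _ a K p hK hinv hfpf hp ha hdvd
  have : Fact p.Prime := ⟨hp⟩
  have : Finite K := hK
  have : Fintype K := Fintype.ofFinite K
  let f : Function.End K := fun k => ⟨a⁻¹ * k * a, hinv k k.2⟩
  have hit : ∀ (n : ℕ) (k : K), ((f ^ n) k : M) = (a ^ n)⁻¹ * k * a ^ n := by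
    intro n
    induction n with
    | zero =>
      intro k
      simp
      rfl
    | succ n ih =>
      intro k
      have h1 : (f ^ (n + 1)) k = f ((f ^ n) k) := by
        rw [pow_succ']
        rfl
      rw [h1]
      show a⁻¹ * ((f ^ n) k : M) * a = _
      rw [ih, pow_succ, mul_inv_rev]
      simp only [mul_assoc]
  have hf : f ^ p ^ 1 = 1 := by
    funext k
    apply Subtype.ext
    rw [hit, pow_one, ha]
    simp
    rfl
  have h1 := Equiv.Perm.card_fixedPoints_modEq hf
  have h2 : Fintype.card (Function.fixedPoints f) = 1 := by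
    rw [Fintype.card_eq_one_iff]
    refine ⟨⟨1, ?_⟩, ?_⟩
    · show f 1 = 1
      apply Subtype.ext
      show a⁻¹ * (1 : M) * a = 1
      simp
    · rintro ⟨k, hk⟩
      apply Subtype.ext
      apply Subtype.ext
      have h3 : a⁻¹ * (k : M) * a = k := congrArg Subtype.val hk
      refine hfpf k k.2 ?_
      calc (k : M) * a = a * (a⁻¹ * (k : M) * a) := by group
        _ = a * k := by rw [h3]
  rw [h2, ← Nat.card_eq_fintype_card] at h1
  have h4 : 1 % p = 0 := by
    rw [← h1]
    exact Nat.mod_eq_zero_of_dvd hdvd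
  rw [Nat.mod_eq_of_lt hp.one_lt] at h4
  exact one_ne_zero h4

end Pool.Agent.Helper83.SH
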